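import Pool.Agent.H37.CNH.Stmts

/-!
# Row HTR: trace and different
-/

set_option autoImplicit false

namespace Pool.CND

open Finset Polynomial

namespace HTR18

theorem ord_prod {k L ι : Type} [Field k] [Field L] [Algebra k L] (P : Place k L) (s : Finset ι)
    (f : ι → L) (h : ∀ i ∈ s, f i ≠ 0) :
    ∏ i ∈ s, f i ≠ 0 ∧ P.ord (∏ i ∈ s, f i) = ∑ i ∈ s, P.ord (f i) := by
  classical
  induction s using Finset.induction_on with
  | empty =>
    rw [prod_empty, sum_empty]
    exact ⟨one_ne_zero, P.ord_one⟩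
  | insert a s ha ih =>
    obtain ⟨h1, h2⟩ := ih (fun i hi => h i (mem_insert_of_mem hi))
    have h3 := h a (mem_insert_self a s)
    rw [prod_insert ha, sum_insert ha]
    exact ⟨mul_ne_zero h3 h1, by rw [P.ord_mul _ _ h3 h1, h2]⟩

/-- the group version -/
theorem grp (hTOT : S_TOT) (hVEC : S_VEC) {k L G : Type} [Field k] [Field L] [Algebra k L]
    [Group G] [Fintype G] [DecidableEq G] (P : Place k L) (ρ : G →* (L ≃ₐ[k] L)) (z : L)
    (hρ : Function.Injective ρ) (hfix : ∀ g, Fixes P (ρ g)) (hcard : 2 ≤ Fintype.card G)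
    (hz : z ≠ 0)
    (hdvd : (Fintype.card G : ℤ) ∣ P.ord z + 1 + ∑ g ∈ univ.erase (1 : G), (P.b (ρ g) + 1)) :
    ∑ g : G, ρ g z ≠ 0 := by
  intro htr
  set u := P.pi with hu
  let Q : G → L[X] := fun σ => ∏ τ ∈ univ.erase σ, (X - C (ρ τ u))
  let g : L[X] := ∑ σ : G, C (ρ σ z) * Q σ
  have hcd : ∀ σ : G, (univ.erase σ).card = Fintype.card G - 1 := by
    intro σ
    rw [card_erase_of_mem (mem_univ σ), card_univ]
  have hmon : ∀ σ, (Q σ).Monic := fun σ => monic_prod_of_monic _ _ fun τ _ => monic_X_sub_C _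
  have hdeg : ∀ σ, (Q σ).natDegree = Fintype.card G - 1 := by
    intro σ
    rw [natDegree_prod_of_monic _ _ fun τ _ => monic_X_sub_C _]
    simp only [natDegree_X_sub_C, sum_const, smul_eq_mul, mul_one]
    exact hcd σ
  have hcoef : g.coeff (Fintype.card G - 1) = 0 := by
    rw [← htr, finsetSum_coeff]
    refine sum_congr rfl fun σ _ => ?_
    have h1 := (hmon σ).coeff_natDegree
    rw [hdeg σ] at h1
    rw [coeff_C_mul, h1, mul_one]
  have hgdeg : g.natDegree < Fintype.card G := by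
    have h1 : g.natDegree ≤ Fintype.card G - 1 := by
      apply natDegree_sum_le_of_forall_le
      intro σ _
      exact (natDegree_C_mul_le _ _).trans (hdeg σ).le
    omega
  have hev : g.eval u = ∑ i ∈ range (Fintype.card G - 1), g.coeff i * u ^ i := by
    rw [eval_eq_sum_range' hgdeg]
    have h1 : Fintype.card G = (Fintype.card G - 1) + 1 := by omega
    rw [h1, sum_range_succ, Nat.add_sub_cancel, hcoef, zero_mul, add_zero]
  -- fixed coefficients
  have hfixc : ∀ (n : G) (i : ℕ), ρ n (g.coeff i) = g.coeff i := by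
    intro n i
    have h1 : g.map ((ρ n : L ≃ₐ[k] L) : L →+* L) = g := by
      simp only [g, Q, Polynomial.map_sum, Polynomial.map_mul, Polynomial.map_prod,
        Polynomial.map_sub, Polynomial.map_X, Polynomial.map_C]
      rw [← Equiv.sum_comp (Equiv.mulLeft n)
        (fun σ => C (ρ σ z) * ∏ τ ∈ univ.erase σ, (X - C (ρ τ u)))]
      refine sum_congr rfl fun σ _ => ?_
      have h2 : ∀ (τ : G) (x : L), ((ρ n : L ≃ₐ[k] L) : L →+* L) (ρ τ x) = ρ (n * τ) x := by
        intro τ x
        rw [map_mul]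
        rfl
      simp only [h2, Equiv.coe_mulLeft]
      congr 1
      refine prod_nbij' (fun τ => n * τ) (fun τ => n⁻¹ * τ) ?_ ?_ ?_ ?_ ?_
      · intro τ hτ
        rw [mem_erase] at hτ ⊢
        exact ⟨fun h => hτ.1 (mul_left_cancel h), mem_univ _⟩
      · intro τ hτ
        rw [mem_erase] at hτ ⊢
        refine ⟨fun h => hτ.1 ?_, mem_univ _⟩
        rw [← h, mul_inv_cancel_left]
      · intro τ _
        exact inv_mul_cancel_left n τ
      · intro τ _
        exact mul_inv_cancel_left n τ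
      · intro τ _
        rfl
    have h3 := congrArg (fun q => q.coeff i) h1
    simp only [coeff_map] at h3
    exact h3
  have hTop : ∀ x : L, x ≠ 0 → (∀ n : G, ρ n x = x) → (Fintype.card G : ℤ) ∣ P.ord x := by
    intro x hx hx2
    have h1 := hTOT k L G P ρ ⊤ hρ (fun n _ => hfix n) x hx (fun n _ => hx2 n)
    rw [Subgroup.card_top, Nat.card_eq_fintype_card] at h1
    exact h1
  -- no fixed uniformiser
  have hne : ∀ σ : G, σ ≠ 1 → u - ρ σ u ≠ 0 := by
    intro σ hσ h
    have h1 : ρ σ u = u := (sub_eq_zero.1 h).symm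
    have h2 := hTOT k L G P ρ (Subgroup.zpowers σ) hρ (fun n _ => hfix n) u P.pi_ne (by
      intro n hn
      obtain ⟨m, rfl⟩ := (mem_zpowers_iff_mem_range_orderOf (x := σ)).1 hn |> Finset.mem_image.1
        |> fun ⟨m, _, hm⟩ => (⟨m, hm⟩ : ∃ m : ℕ, σ ^ m = n)
      clear hn
      induction m with
      | zero => rw [pow_zero, map_one, AlgEquiv.one_apply]
      | succ m ih => rw [pow_succ, map_mul, AlgEquiv.mul_apply, h1, ih])
    rw [hu, P.ord_pi] at h2
    have h3 : Nat.card (Subgroup.zpowers σ) = 1 := by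
      have h4 : ((Nat.card (Subgroup.zpowers σ) : ℕ) : ℤ) ∣ ((1 : ℕ) : ℤ) := by
        rw [Nat.cast_one]
        exact h2
      exact Nat.dvd_one.1 (Int.natCast_dvd_natCast.1 h4)
    rw [Nat.card_zpowers, orderOf_eq_one_iff] at h3
    exact hσ h3
  -- the value at `u`
  have hval : g.eval u = z * ∏ τ ∈ univ.erase (1 : G), (u - ρ τ u) := by
    simp only [g, Q, eval_finsetSum, eval_mul, eval_C, eval_prod, eval_sub, eval_X]
    rw [sum_eq_single (1 : G)]
    · rw [map_one, AlgEquiv.one_apply]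
    · intro σ _ hσ
      rw [prod_eq_zero (i := (1 : G)) (mem_erase.2 ⟨hσ.symm, mem_univ _⟩), mul_zero]
      rw [map_one, AlgEquiv.one_apply, sub_self]
    · intro h
      exact absurd (mem_univ _) h
  obtain ⟨hp1, hp2⟩ := ord_prod P (univ.erase (1 : G)) (fun τ => u - ρ τ u)
    (fun τ hτ => hne τ (mem_erase.1 hτ).1)
  have hgne : g.eval u ≠ 0 := by
    rw [hval]
    exact mul_ne_zero hz hp1
  have hord : P.ord (g.eval u) = P.ord z + ∑ τ ∈ univ.erase (1 : G), (P.b (ρ τ) + 1) := by
    rw [hval, P.ord_mul _ _ hz hp1, hp2]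
    congr 1
    refine sum_congr rfl fun τ _ => ?_
    rw [Place.b, sub_add_cancel, ← P.ord_neg, neg_sub]
  -- the other count
  have hsum : g.eval u = ∑ i : Fin (Fintype.card G - 1), g.coeff (i : ℕ) * u ^ (i : ℕ) := by
    rw [hev, Finset.sum_range]
  have hc : ∃ i : Fin (Fintype.card G - 1), g.coeff (i : ℕ) ≠ 0 := by
    by_contra hcon
    push Not at hcon
    apply hgne
    rw [hsum]
    refine sum_eq_zero fun i _ => ?_
    rw [hcon i, zero_mul]
  have hordu : ∀ i : ℕ, P.ord (u ^ i) = i := by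
    intro i
    rw [P.ord_pow P.pi_ne, P.ord_pi, mul_one]
  obtain ⟨-, i0, hi0, hi1, -⟩ := hVEC k L (Fin (Fintype.card G - 1)) P (Fintype.card G)
    (fun i => u ^ (i : ℕ)) (fun i => g.coeff (i : ℕ)) (by omega)
    (fun i => pow_ne_zero _ P.pi_ne) (by
      intro i j hij h
      rw [hordu, hordu] at h
      have hi := i.isLt
      have hj := j.isLt
      have hne2 : (i : ℕ) ≠ j := fun h => hij (Fin.ext h)
      have h2 := Int.eq_zero_of_abs_lt_dvd h (by
        rw [abs_lt]
        constructor <;> omega)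
      omega) (by
      intro i
      by_cases h0 : g.coeff (i : ℕ) = 0
      · exact Or.inl h0
      · exact Or.inr (hTop _ h0 fun n => hfixc n i)) hc
  have h1 : P.ord (g.coeff (i0 : ℕ) * u ^ (i0 : ℕ)) = P.ord (g.coeff (i0 : ℕ)) + i0 := by
    rw [P.ord_mul _ _ hi0 (pow_ne_zero _ P.pi_ne), hordu]
  have h2 := hTop _ hi0 fun n => hfixc n i0
  rw [← hsum, h1, hord] at hi1
  have h3 : (Fintype.card G : ℤ) ∣ (i0 : ℕ) + 1 := by
    have h4 : ((i0 : ℕ) : ℤ) + 1 = (P.ord z + 1 + ∑ g ∈ univ.erase (1 : G), (P.b (ρ g) + 1)) -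
        P.ord (g.coeff (i0 : ℕ)) := by
      linarith only [hi1]
    rw [h4]
    exact dvd_sub hdvd h2
  have hi := i0.isLt
  have h5 := Int.le_of_dvd (by omega) h3
  omega

end HTR18

theorem htr_thm (hTOT : S_TOT) (hVEC : S_VEC) : S_HTR := by
  intro k L _ _ _ P γ e z he hfix hord hz hdvd
  classical
  have hfin : IsOfFinOrder γ := orderOf_pos_iff.1 (by omega)
  have hF : Finite (Subgroup.zpowers γ) := hfin.finite_zpowers
  let hFt : Fintype (Subgroup.zpowers γ) := Fintype.ofFinite _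
  let a : Subgroup.zpowers γ := ⟨γ, Subgroup.mem_zpowers γ⟩
  have ha : orderOf a = e := by
    rw [← hord]
    exact Subgroup.orderOf_mk γ _
  have hcard : Fintype.card (Subgroup.zpowers γ) = e := by
    rw [← hord, ← Nat.card_eq_fintype_card, Nat.card_zpowers]
  have hgen : ∀ x : Subgroup.zpowers γ, x ∈ Subgroup.zpowers a := by
    rintro ⟨x, hx⟩
    obtain ⟨n, rfl⟩ := Subgroup.mem_zpowers_iff.1 hx
    exact Subgroup.mem_zpowers_iff.2 ⟨n, rfl⟩
  have himg : (range e).image (fun i => a ^ i) = univ := by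
    rw [← ha]
    exact IsCyclic.image_range_orderOf hgen
  have hinj : Set.InjOn (fun i => a ^ i) (range e : Finset ℕ) := by
    intro i hi j hj hij
    rw [coe_range, Set.mem_Iio, ← ha] at hi hj
    exact pow_injOn_Iio_orderOf hi hj hij
  have hsum : ∀ {M : Type} [AddCommMonoid M] (F : Subgroup.zpowers γ → M),
      ∑ x, F x = ∑ j ∈ range e, F (a ^ j) := by
    intro M _ F
    rw [← himg, sum_image hinj]
  have hpow : ∀ j : ℕ, ((a ^ j : Subgroup.zpowers γ) : L ≃ₐ[k] L) = γ ^ j := fun j => rfl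
  have h1 : ∑ g ∈ univ.erase (1 : Subgroup.zpowers γ), (P.b (g : L ≃ₐ[k] L) + 1) =
      ∑ j ∈ Ico 1 e, (P.b (γ ^ j) + 1) := by
    have h2 := Finset.sum_erase_add univ (fun g : Subgroup.zpowers γ =>
      (P.b (g : L ≃ₐ[k] L) + 1)) (mem_univ (1 : Subgroup.zpowers γ))
    rw [hsum, range_eq_Ico, sum_eq_sum_Ico_succ_bot (by omega)] at h2
    simp only [hpow, pow_zero] at h2
    have h3 : ((1 : Subgroup.zpowers γ) : L ≃ₐ[k] L) = 1 := rfl
    rw [h3] at h2
    linarith only [h2]
  have h2 := HTR18.grp hTOT hVEC P (Subgroup.zpowers γ).subtype z (Subgroup.subtype_injective _)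
    (by
      intro g
      obtain ⟨i, -, hi⟩ := Finset.mem_image.1 (himg ▸ mem_univ g)
      rw [← hi]
      exact hfix.pow i) (by omega) hz (by
      rw [hcard]
      simp only [Subgroup.coe_subtype]
      rw [h1]
      exact hdvd)
  rw [hsum] at h2
  exact h2

end Pool.CND
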